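import Pool.Agent.Helper46.BF.Test

/-!
# Mixed differences from derivatives

`cnd_of_deriv`: if `l ≤ f^(q+2) ≤ m` on `[a, b]` then `Cnd q f a b l m`. `cnd4`: the sixth derivative of
`x ↦ R √(A² + x²) + c x` is `R A² (45 A⁴ - 540 A² x² + 360 x⁴) / s¹¹`, `s = √(A² + x²)`.
-/

set_option autoImplicit false

namespace Pool.Agent.Helper46.BF

open Finset

theorem Cnd_triv (q : ℕ) : ∀ (f : ℕ → ℝ) (a b : ℕ) (l m : ℝ), b ≤ a + 1 → Cnd q f a b l m := by
  induction q with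
  | zero =>
    intro f a b l m h n h1 h2
    omega
  | succ q ih =>
    intro f a b l m h u hu
    exact ih _ _ _ _ _ (by omega)

theorem cnd_of_deriv (q : ℕ) : ∀ (G : ℕ → ℝ → ℝ) (a b : ℕ) (l m : ℝ),
    (∀ i, i < q + 2 → ∀ x, HasDerivAt (G i) (G (i + 1) x) x) →
    (∀ x : ℝ, (a : ℝ) ≤ x → x ≤ b → l ≤ G (q + 2) x ∧ G (q + 2) x ≤ m) → Cnd q (fun n => G 0 n) a b l m := by
  induction q with
  | zero =>
    intro G a b l m hG hb n hn hnb
    have h1 : ∀ x, HasDerivAt (fun x => G 0 (x + 1) - G 0 x) (G 1 (x + 1) - G 1 x) x := by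
      intro x
      have h2 := (hG 0 (by norm_num) (x + 1)).comp_add_const x 1
      exact h2.sub (hG 0 (by norm_num) x)
    obtain ⟨y, hy, hy2⟩ := exists_hasDerivAt_eq_slope (fun x => G 0 (x + 1) - G 0 x) (fun x => G 1 (x + 1) - G 1 x)
      (show (n : ℝ) < n + 1 by linarith) (fun x _ => (h1 x).continuousAt.continuousWithinAt) (fun x _ => h1 x)
    obtain ⟨z, hz, hz2⟩ := exists_hasDerivAt_eq_slope (G 1) (G 2)
      (show y < y + 1 by linarith) (fun x _ => (hG 1 (by norm_num) x).continuousAt.continuousWithinAt)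
      (fun x _ => hG 1 (by norm_num) x)
    have h3 : ((n : ℝ) + 1 + 1) ≤ b := by
      have : n + 1 + 1 ≤ b := by omega
      exact_mod_cast this
    have h4 : (a : ℝ) ≤ n := by exact_mod_cast hn
    have h5 := hb z (by linarith [hz.1, hy.1]) (by linarith [hz.2, hy.2])
    have h6 : G 2 z = (G 0 ((n : ℝ) + 1 + 1) - G 0 ((n : ℝ) + 1)) - (G 0 ((n : ℝ) + 1) - G 0 n) := by
      rw [hz2]
      have e1 : y + 1 - y = 1 := by ring
      rw [e1, div_one, hy2]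
      have e2 : (n : ℝ) + 1 - n = 1 := by ring
      rw [e2, div_one]
    have e3 : (((n + 2 : ℕ)) : ℝ) = (n : ℝ) + 1 + 1 := by push_cast; ring
    have e4 : (((n + 1 : ℕ)) : ℝ) = (n : ℝ) + 1 := by push_cast; ring
    simp only [e3, e4]
    rw [← h6]
    exact h5
  | succ q ih =>
    intro G a b l m hG hb u hu
    rcases Nat.le_total b (a + u) with hbu | hbu
    · exact Cnd_triv q _ _ _ _ _ (by omega)
    have hu0 : (0 : ℝ) < u := by exact_mod_cast hu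
    have h0 := ih (fun i x => G i (x + u) - G i x) a (b - u) (l * u) (m * u) (fun i hi x => by
      have h2 := (hG i (by omega) (x + u)).comp_add_const x u
      exact h2.sub (hG i (by omega) x)) (fun x hx hx2 => by
      have hbu' : ((b - u : ℕ) : ℝ) = b - u := by
        rw [Nat.cast_sub (by omega)]
      rw [hbu'] at hx2
      obtain ⟨z, hz, hz2⟩ := exists_hasDerivAt_eq_slope (G (q + 2)) (G (q + 2 + 1))
        (show x < x + u by linarith) (fun x _ => (hG (q + 2) (by omega) x).continuousAt.continuousWithinAt)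
        (fun x _ => hG (q + 2) (by omega) x)
      have h5 := hb z (by linarith [hz.1]) (by linarith [hz.2])
      have h6 : G (q + 2) (x + u) - G (q + 2) x = G (q + 2 + 1) z * u := by
        rw [hz2]
        have e1 : x + u - x = u := by ring
        rw [e1]
        field_simp
      rw [h6]
      exact ⟨mul_le_mul_of_nonneg_right h5.1 hu0.le, mul_le_mul_of_nonneg_right h5.2 hu0.le⟩)
    have e : Dif u (fun n : ℕ => G 0 n) = fun n : ℕ => (fun i x => G i (x + u) - G i x) 0 (n : ℝ) := by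
      funext n
      unfold Dif
      simp only
      push_cast
      rfl
    rw [e]
    exact h0

theorem hasDerivAt_s {A : ℝ} (hA : 0 < A) (x : ℝ) :
    HasDerivAt (fun x : ℝ => √(A ^ 2 + x ^ 2)) (x / √(A ^ 2 + x ^ 2)) x := by
  have h1 : HasDerivAt (fun x : ℝ => A ^ 2 + x ^ 2) (2 * x) x := by
    have := (hasDerivAt_pow 2 x).const_add (A ^ 2)
    simpa using this
  have h2 := h1.sqrt (by positivity)
  refine h2.congr_deriv ?_
  field_simp

theorem hasDerivAt_q {A : ℝ} (hA : 0 < A) (R : ℝ) (k : ℕ) {p : ℝ → ℝ} {p' : ℝ} {x : ℝ} (hp : HasDerivAt p p' x) :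
    HasDerivAt (fun x : ℝ => R * A ^ 2 * p x / √(A ^ 2 + x ^ 2) ^ (k + 1))
      (R * A ^ 2 * (p' * (A ^ 2 + x ^ 2) - (k + 1) * p x * x) / √(A ^ 2 + x ^ 2) ^ (k + 3)) x := by
  have hs : 0 < √(A ^ 2 + x ^ 2) := Real.sqrt_pos.2 (by positivity)
  have hss : √(A ^ 2 + x ^ 2) ^ 2 = A ^ 2 + x ^ 2 := Real.sq_sqrt (by positivity)
  have h1 := (hasDerivAt_s hA x).fun_pow (k + 1)
  have h2 := (hp.const_mul (R * A ^ 2)).fun_div h1 (by positivity)
  refine h2.congr_deriv ?_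
  rw [Nat.add_sub_cancel]
  set s := √(A ^ 2 + x ^ 2)
  rw [← hss]
  push_cast
  field_simp
  ring

/-- the derivatives of the phase -/
noncomputable def Gd (R A c : ℝ) : ℕ → ℝ → ℝ
  | 0 => fun x => R * √(A ^ 2 + x ^ 2) + c * x
  | 1 => fun x => R * (x / √(A ^ 2 + x ^ 2)) + c
  | 2 => fun x => R * A ^ 2 * 1 / √(A ^ 2 + x ^ 2) ^ (2 + 1)
  | 3 => fun x => R * A ^ 2 * (-3 * x) / √(A ^ 2 + x ^ 2) ^ (4 + 1)
  | 4 => fun x => R * A ^ 2 * (12 * x ^ 2 - 3 * A ^ 2) / √(A ^ 2 + x ^ 2) ^ (6 + 1)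
  | 5 => fun x => R * A ^ 2 * (45 * A ^ 2 * x - 60 * x ^ 3) / √(A ^ 2 + x ^ 2) ^ (8 + 1)
  | 6 => fun x => R * A ^ 2 * (45 * A ^ 4 - 540 * A ^ 2 * x ^ 2 + 360 * x ^ 4) / √(A ^ 2 + x ^ 2) ^ (10 + 1)
  | _ => fun _ => 0

theorem Gd_deriv {A : ℝ} (hA : 0 < A) (R c : ℝ) : ∀ i, i < 4 + 2 → ∀ x, HasDerivAt (Gd R A c i) (Gd R A c (i + 1) x) x := by
  intro i hi x
  have hs : 0 < √(A ^ 2 + x ^ 2) := Real.sqrt_pos.2 (by positivity)
  have hss : √(A ^ 2 + x ^ 2) ^ 2 = A ^ 2 + x ^ 2 := Real.sq_sqrt (by positivity)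
  interval_cases i
  · have h1 := ((hasDerivAt_s hA x).const_mul R).add ((hasDerivAt_id x).const_mul c)
    refine h1.congr_deriv ?_
    simp only [Gd]
    ring
  · have h1 := (((hasDerivAt_id x).div (hasDerivAt_s hA x) hs.ne').const_mul R).add_const c
    refine h1.congr_deriv ?_
    simp only [Gd, id]
    have h2 : A ^ 2 = √(A ^ 2 + x ^ 2) ^ 2 - x ^ 2 := by rw [hss]; ring
    set s := √(A ^ 2 + x ^ 2)
    rw [h2]
    field_simp
    ring
  · have h1 := hasDerivAt_q hA R 2 (hasDerivAt_const x (1 : ℝ))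
    refine h1.congr_deriv ?_
    simp only [Gd]
    push_cast
    ring
  · have h1 := hasDerivAt_q hA R 4 (p := fun x => -3 * x) ((hasDerivAt_id x).const_mul (-3 : ℝ))
    refine h1.congr_deriv ?_
    simp only [Gd]
    push_cast
    ring
  · have h1 := hasDerivAt_q hA R 6 (p := fun x => 12 * x ^ 2 - 3 * A ^ 2)
      (((hasDerivAt_pow 2 x).const_mul (12 : ℝ)).sub_const (3 * A ^ 2))
    refine h1.congr_deriv ?_
    simp only [Gd]
    push_cast
    ring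
  · have h1 := hasDerivAt_q hA R 8 (p := fun x => 45 * A ^ 2 * x - 60 * x ^ 3)
      (((hasDerivAt_id x).const_mul (45 * A ^ 2)).sub ((hasDerivAt_pow 3 x).const_mul (60 : ℝ)))
    refine h1.congr_deriv ?_
    simp only [Gd]
    push_cast
    ring

/-- the mixed differences of order six of the phase -/
theorem cnd4 {R r A c K : ℝ} (hr : 0 < r) (hA : 0 < A) (hK : 0 < K) {a b : ℕ}
    (h : ∀ x : ℝ, (a : ℝ) ≤ x → x ≤ b → K ^ 2 ≤ A ^ 2 + x ^ 2 ∧ A ^ 2 + x ^ 2 ≤ 9 * K ^ 2 ∧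
      10 * K ^ 6 * r ≤ R * A ^ 2 * (45 * A ^ 4 - 540 * A ^ 2 * x ^ 2 + 360 * x ^ 4) ∧
      R * A ^ 2 * (45 * A ^ 4 - 540 * A ^ 2 * x ^ 2 + 360 * x ^ 4) ≤ 10 ^ 5 * K ^ 6 * r) :
    Cnd 4 (fun n : ℕ => R * √(A ^ 2 + (n : ℝ) ^ 2) + c * n) a b (r / K ^ 5 / 10 ^ 5) (10 ^ 10 * (r / K ^ 5 / 10 ^ 5)) := by
  refine cnd_of_deriv 4 (Gd R A c) a b _ _ (Gd_deriv hA R c) ?_
  intro x hx hx2
  obtain ⟨h1, h2, h3, h4⟩ := h x hx hx2
  set s := √(A ^ 2 + x ^ 2) with hs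
  have hss : s ^ 2 = A ^ 2 + x ^ 2 := Real.sq_sqrt (by positivity)
  have hs0 : 0 ≤ s := Real.sqrt_nonneg _
  have hs1 : K ≤ s := by
    rw [← hss] at h1
    exact (pow_le_pow_iff_left₀ hK.le hs0 two_ne_zero).1 h1
  have hs2 : s ≤ 3 * K := by
    rw [← hss] at h2
    have h5 : s ^ 2 ≤ (3 * K) ^ 2 := by
      refine h2.trans_eq ?_
      ring
    exact (pow_le_pow_iff_left₀ hs0 (by positivity) two_ne_zero).1 h5
  have hs3 : K ^ 11 ≤ s ^ 11 := pow_le_pow_left₀ hK.le hs1 11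
  have hs4 : s ^ 11 ≤ 3 ^ 11 * K ^ 11 := by
    have := pow_le_pow_left₀ hs0 hs2 11
    rwa [mul_pow] at this
  have hsp : 0 < s ^ 11 := by
    have : 0 < s := by linarith
    positivity
  set N := R * A ^ 2 * (45 * A ^ 4 - 540 * A ^ 2 * x ^ 2 + 360 * x ^ 4) with hN
  have e : Gd R A c (4 + 2) x = N / s ^ 11 := rfl
  rw [e]
  have hKr : 0 < K ^ 6 * r := by positivity
  constructor
  · have e1 : r / K ^ 5 / 10 ^ 5 = (10 * K ^ 6 * r) / (10 ^ 6 * K ^ 11) := by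
      field_simp
    rw [e1]
    have h6 : s ^ 11 ≤ 10 ^ 6 * K ^ 11 := hs4.trans (mul_le_mul_of_nonneg_right (by norm_num) (by positivity))
    exact div_le_div₀ (by linarith) h3 hsp h6
  · have e1 : 10 ^ 10 * (r / K ^ 5 / 10 ^ 5) = (10 ^ 5 * K ^ 6 * r) / K ^ 11 := by
      field_simp
    rw [e1]
    exact div_le_div₀ (by positivity) h4 (by positivity) hs3

end Pool.Agent.Helper46.BF
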