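import Pool.Agent.Helper46.BF.Line
import Pool.Agent.Helper92.GC.G3

/-!
# The sixth derivative test for the octant

`oct6`: `‖bs (oct K) K i R c‖ ≤ C K² (R / K⁵)^(1/62)` for `R^(1/5) ≤ K ≤ R^(16/49)`, for all radii and all centres.
The octant is the union of three regions: `5 j ≤ h` and `2 h ≤ 5 j` (lines with `h` fixed) and `h < 5 j < 2 h`
(lines with `j` fixed); on each line the sixth derivative of the phase has constant sign and size `R / K⁵`.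
-/

set_option autoImplicit false

namespace Pool.Agent.Helper46.BF

open Finset
open Pool.Agent.Helper22.GC (ee ee_add norm_ee conj_ee)

/-- the number `A² (45 A⁴ - 540 A² x² + 360 x⁴)` -/
noncomputable def P6 (A x : ℝ) : ℝ := A ^ 2 * (45 * A ^ 4 - 540 * A ^ 2 * x ^ 2 + 360 * x ^ 4)

theorem lineB : ∃ C : ℝ, 0 < C ∧ ∀ (K : ℕ) (R A c d : ℝ) (a b i : ℕ), 400 ≤ K → 1 ≤ R → R ≤ (K : ℝ) ^ 5 →
    (K : ℝ) ^ 49 ≤ R ^ 16 → 0 < A → b ≤ a + 2 * K →
    (∀ x : ℝ, (a : ℝ) ≤ x → x ≤ b → (K : ℝ) ^ 2 ≤ A ^ 2 + x ^ 2 ∧ A ^ 2 + x ^ 2 ≤ 9 * (K : ℝ) ^ 2) →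
    ((∀ x : ℝ, (a : ℝ) ≤ x → x ≤ b → 10 * (K : ℝ) ^ 6 ≤ P6 A x ∧ P6 A x ≤ 10 ^ 5 * (K : ℝ) ^ 6) ∨
      (∀ x : ℝ, (a : ℝ) ≤ x → x ≤ b → 10 * (K : ℝ) ^ 6 ≤ -P6 A x ∧ -P6 A x ≤ 10 ^ 5 * (K : ℝ) ^ 6)) →
    ‖∑ n ∈ Ico a b, ((((K : ℝ) / √(A ^ 2 + (n : ℝ) ^ 2)) ^ i : ℝ) : ℂ) *
      ee (R * √(A ^ 2 + (n : ℝ) ^ 2) + c * n + d)‖ ≤ C * (K * (R / (K : ℝ) ^ 5) ^ (1 / 62 : ℝ)) := by
  obtain ⟨C, hC, hl⟩ := line4
  refine ⟨C, hC, ?_⟩
  intro K R A c d a b i hK hR hRK hKR hA hab hx hP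
  have hK0 : (0 : ℝ) < K := by
    have : 0 < K := by omega
    exact_mod_cast this
  have hR0 : (0 : ℝ) < R := by linarith
  set f : ℕ → ℝ := fun n => R * √(A ^ 2 + (n : ℝ) ^ 2) + c * n with hf
  have hM0 : 0 ≤ C * (K * (R / (K : ℝ) ^ 5) ^ (1 / 62 : ℝ)) := by positivity
  -- the sums without weights
  have hS : ∀ b', a ≤ b' → b' ≤ b → ‖Sm f a b'‖ ≤ C * (K * (R / (K : ℝ) ^ 5) ^ (1 / 62 : ℝ)) := by
    intro b' _ hb'
    have hb'' : (b' : ℝ) ≤ b := by exact_mod_cast hb'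
    rcases hP with hP | hP
    · refine hl f a b' K R hK hR hRK hKR (by omega) ?_
      refine cnd4 hR0 hA hK0 fun x hx1 hx2 => ?_
      obtain ⟨h1, h2⟩ := hx x hx1 (hx2.trans hb'')
      obtain ⟨h3, h4⟩ := hP x hx1 (hx2.trans hb'')
      have h5 : R * A ^ 2 * (45 * A ^ 4 - 540 * A ^ 2 * x ^ 2 + 360 * x ^ 4) = P6 A x * R := by
        unfold P6
        ring
      rw [h5]
      exact ⟨h1, h2, mul_le_mul_of_nonneg_right h3 hR0.le, mul_le_mul_of_nonneg_right h4 hR0.le⟩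
    · rw [← Sm_neg]
      have h6 : (fun n => -f n) = fun n : ℕ => (-R) * √(A ^ 2 + (n : ℝ) ^ 2) + (-c) * n := by
        funext n
        rw [hf]
        ring
      rw [h6]
      refine hl _ a b' K R hK hR hRK hKR (by omega) ?_
      refine cnd4 hR0 hA hK0 fun x hx1 hx2 => ?_
      obtain ⟨h1, h2⟩ := hx x hx1 (hx2.trans hb'')
      obtain ⟨h3, h4⟩ := hP x hx1 (hx2.trans hb'')
      have h5 : (-R) * A ^ 2 * (45 * A ^ 4 - 540 * A ^ 2 * x ^ 2 + 360 * x ^ 4) = -P6 A x * R := by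
        unfold P6
        ring
      rw [h5]
      exact ⟨h1, h2, mul_le_mul_of_nonneg_right h3 hR0.le, mul_le_mul_of_nonneg_right h4 hR0.le⟩
  have h1 : ∑ n ∈ Ico a b, ((((K : ℝ) / √(A ^ 2 + (n : ℝ) ^ 2)) ^ i : ℝ) : ℂ) *
      ee (R * √(A ^ 2 + (n : ℝ) ^ 2) + c * n + d) =
      (∑ n ∈ Ico a b, ((((K : ℝ) / √(A ^ 2 + (n : ℝ) ^ 2)) ^ i : ℝ) : ℂ) * ee (f n)) * ee d := by
    rw [sum_mul]
    refine sum_congr rfl fun n _ => ?_
    rw [ee_add, mul_assoc]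
  rw [h1, norm_mul, norm_ee, mul_one]
  have hs0 : ∀ n : ℕ, 0 < √(A ^ 2 + (n : ℝ) ^ 2) := fun n => Real.sqrt_pos.2 (by positivity)
  refine abel (fun n => ((K : ℝ) / √(A ^ 2 + (n : ℝ) ^ 2)) ^ i) (fun n => ee (f n)) hM0 ?_ ?_ hS
  · intro n _ _
    refine pow_le_pow_left₀ (by positivity) ?_ i
    refine div_le_div_of_nonneg_left hK0.le (hs0 n) ?_
    refine Real.sqrt_le_sqrt ?_
    push_cast
    have : (0 : ℝ) ≤ n := Nat.cast_nonneg n
    nlinarith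
  · intro n hn1 hn2
    have h2 := (hx n (by exact_mod_cast hn1) (by exact_mod_cast hn2.le)).1
    have h3 : (K : ℝ) ≤ √(A ^ 2 + (n : ℝ) ^ 2) := Real.le_sqrt_of_sq_le h2
    refine ⟨by positivity, pow_le_one₀ (by positivity) ?_⟩
    rw [div_le_one (hs0 n)]
    exact h3

private theorem P6_eq46 (A x : ℝ) : P6 A x = A ^ 2 * (45 * (A ^ 2) ^ 2 - 540 * A ^ 2 * x ^ 2 + 360 * (x ^ 2) ^ 2) := by
  unfold P6
  ring

private theorem six46 {K h : ℝ} (hK : 0 < K) (h1 : K ≤ h) (h2 : h ≤ 2 * K) : K ^ 6 ≤ (h ^ 2) ^ 3 ∧ (h ^ 2) ^ 3 ≤ 64 * K ^ 6 := by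
  have h3 := pow_le_pow_left₀ hK.le h1 6
  have h4 := pow_le_pow_left₀ (hK.le.trans h1) h2 6
  constructor
  · rw [← pow_mul]
    exact h3
  · rw [← pow_mul]
    refine h4.trans_eq ?_
    ring

theorem P6_I {K h x : ℝ} (hK : 0 < K) (h1 : K ≤ h) (h2 : h ≤ 2 * K) (hx0 : 0 ≤ x) (hx : x ≤ 21 / 100 * h) :
    10 * K ^ 6 ≤ P6 h x ∧ P6 h x ≤ 10 ^ 5 * K ^ 6 := by
  obtain ⟨h3, h4⟩ := six46 hK h1 h2
  have hX : x ^ 2 ≤ 441 / 10000 * h ^ 2 := by
    have := pow_le_pow_left₀ hx0 hx 2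
    refine this.trans_eq ?_
    ring
  rw [P6_eq46]
  set H := h ^ 2 with hH
  set X := x ^ 2 with hXd
  have hh : 0 < h := by linarith
  have hH0 : 0 < H := by positivity
  have hX0 : 0 ≤ X := by positivity
  have h5 : 0 < K ^ 6 := by positivity
  have h6 : 21 * H ^ 2 ≤ 45 * H ^ 2 - 540 * H * X + 360 * X ^ 2 := by nlinarith
  have h7 : 45 * H ^ 2 - 540 * H * X + 360 * X ^ 2 ≤ 45 * H ^ 2 := by nlinarith
  have h8 := mul_le_mul_of_nonneg_left h6 hH0.le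
  have h9 := mul_le_mul_of_nonneg_left h7 hH0.le
  have h10 : H * (21 * H ^ 2) = 21 * H ^ 3 := by ring
  have h11 : H * (45 * H ^ 2) = 45 * H ^ 3 := by ring
  constructor
  · linarith
  · linarith

theorem P6_II {K A x : ℝ} (hK : 0 < K) (h1 : K ≤ x) (h2 : x ≤ 2 * K) (hA : 0 < A) (hx : 5 / 2 * A ≤ x) (hx' : x ≤ 5 * A) :
    10 * K ^ 6 ≤ P6 A x ∧ P6 A x ≤ 10 ^ 5 * K ^ 6 := by
  obtain ⟨h3, h4⟩ := six46 hK h1 h2
  have hX : x ^ 2 ≤ 25 * A ^ 2 := by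
    have := pow_le_pow_left₀ (by linarith) hx' 2
    refine this.trans_eq ?_
    ring
  have hX' : 25 / 4 * A ^ 2 ≤ x ^ 2 := by
    have := pow_le_pow_left₀ (by positivity) hx 2
    refine le_trans (le_of_eq ?_) this
    ring
  rw [P6_eq46]
  set H := A ^ 2 with hH
  set X := x ^ 2 with hXd
  have hH0 : 0 < H := by positivity
  have hX0 : 0 < X := by
    have : 0 < x := by linarith
    positivity
  have h5 : 0 < K ^ 6 := by positivity
  have h6 : 2736 / 10 * X ^ 2 ≤ 45 * H ^ 2 - 540 * H * X + 360 * X ^ 2 := by nlinarith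
  have h7 : 45 * H ^ 2 - 540 * H * X + 360 * X ^ 2 ≤ 405 * X ^ 2 := by nlinarith
  have h8 : X / 25 * (2736 / 10 * X ^ 2) ≤ H * (45 * H ^ 2 - 540 * H * X + 360 * X ^ 2) :=
    mul_le_mul (by linarith) h6 (by positivity) hH0.le
  have h9 : H * (45 * H ^ 2 - 540 * H * X + 360 * X ^ 2) ≤ X * (405 * X ^ 2) :=
    mul_le_mul (by linarith) h7 (by nlinarith) hX0.le
  have h10 : X / 25 * (2736 / 10 * X ^ 2) = 2736 / 250 * X ^ 3 := by ring
  have h11 : X * (405 * X ^ 2) = 405 * X ^ 3 := by ring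
  constructor
  · linarith
  · linarith

theorem P6_III {K h x : ℝ} (hK : 0 < K) (h1 : K ≤ h) (h2 : h ≤ 2 * K) (hx0 : 2 / 5 * h ≤ x) (hx : x ≤ 101 / 100 * h) :
    10 * K ^ 6 ≤ -P6 h x ∧ -P6 h x ≤ 10 ^ 5 * K ^ 6 := by
  obtain ⟨h3, h4⟩ := six46 hK h1 h2
  have hh : 0 < h := by linarith
  have hX : x ^ 2 ≤ 10201 / 10000 * h ^ 2 := by
    have := pow_le_pow_left₀ (by nlinarith) hx 2
    refine this.trans_eq ?_
    ring
  have hX' : 4 / 25 * h ^ 2 ≤ x ^ 2 := by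
    have := pow_le_pow_left₀ (by positivity) hx0 2
    refine le_trans (le_of_eq ?_) this
    ring
  rw [P6_eq46]
  set H := h ^ 2 with hH
  set X := x ^ 2 with hXd
  have hH0 : 0 < H := by positivity
  have hX0 : 0 ≤ X := by positivity
  have h5 : 0 < K ^ 6 := by positivity
  have h6 : 32 * H ^ 2 ≤ -(45 * H ^ 2 - 540 * H * X + 360 * X ^ 2) := by
    nlinarith [mul_nonneg (sub_nonneg.2 hX') (sub_nonneg.2 hX), mul_nonneg hH0.le (sub_nonneg.2 hX')]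
  have h7 : -(45 * H ^ 2 - 540 * H * X + 360 * X ^ 2) ≤ 551 * H ^ 2 := by nlinarith
  have h8 := mul_le_mul_of_nonneg_left h6 hH0.le
  have h9 := mul_le_mul_of_nonneg_left h7 hH0.le
  have h10 : H * (32 * H ^ 2) = 32 * H ^ 3 := by ring
  have h11 : H * (551 * H ^ 2) = 551 * H ^ 3 := by ring
  constructor
  · linarith
  · linarith

/-- the term of the lattice point `(h, j)` -/
noncomputable def tm (K i : ℕ) (R : ℝ) (c : ℝ × ℝ) (h j : ℕ) : ℂ :=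
  ((((K : ℝ) / √((h : ℝ) ^ 2 + (j : ℝ) ^ 2)) ^ i : ℝ) : ℂ) *
    ee (R * √((h : ℝ) ^ 2 + (j : ℝ) ^ 2) + (h * c.1 + j * c.2))

/-- the three kinds of lines -/
theorem lines : ∃ C : ℝ, 0 < C ∧ ∀ (K : ℕ) (R : ℝ) (c : ℝ × ℝ) (i : ℕ), 400 ≤ K → 1 ≤ R → R ≤ (K : ℝ) ^ 5 →
    (K : ℝ) ^ 49 ≤ R ^ 16 →
    (∀ h, K ≤ h → h < 2 * K → ‖∑ j ∈ Ico 0 (h / 5 + 1), tm K i R c h j‖ ≤ C * (K * (R / (K : ℝ) ^ 5) ^ (1 / 62 : ℝ))) ∧
    (∀ h, K ≤ h → h < 2 * K → ‖∑ j ∈ Ico ((2 * h + 4) / 5) (h + 1), tm K i R c h j‖ ≤ C * (K * (R / (K : ℝ) ^ 5) ^ (1 / 62 : ℝ))) ∧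
    (∀ j, ‖∑ h ∈ Ico (max K (5 * j / 2 + 1)) (min (2 * K) (5 * j)), tm K i R c h j‖ ≤ C * (K * (R / (K : ℝ) ^ 5) ^ (1 / 62 : ℝ))) := by
  obtain ⟨C, hC, hl⟩ := lineB
  refine ⟨C, hC, ?_⟩
  intro K R c i hK hR hRK hKR
  have hK0 : (0 : ℝ) < K := by
    have : 0 < K := by omega
    exact_mod_cast this
  have hK1 : (400 : ℝ) ≤ K := by exact_mod_cast hK
  have hM0 : 0 ≤ C * (K * (R / (K : ℝ) ^ 5) ^ (1 / 62 : ℝ)) := by positivity
  refine ⟨?_, ?_, ?_⟩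
  · intro h h1 h2
    have h1' : (K : ℝ) ≤ h := by exact_mod_cast h1
    have h2' : (h : ℝ) ≤ 2 * K := by exact_mod_cast h2.le
    have hh0 : (0 : ℝ) < h := by linarith
    have hfl : ((h / 5 + 1 : ℕ) : ℝ) ≤ 21 / 100 * h := by
      have h3 : ((h / 5 : ℕ) : ℝ) ≤ (h : ℝ) / 5 := by
        have := @Nat.cast_div_le ℝ _ _ _ h 5
        simpa using this
      push_cast
      linarith
    have e : ∀ j : ℕ, tm K i R c h j = ((((K : ℝ) / √((h : ℝ) ^ 2 + (j : ℝ) ^ 2)) ^ i : ℝ) : ℂ) *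
        ee (R * √((h : ℝ) ^ 2 + (j : ℝ) ^ 2) + c.2 * j + h * c.1) := by
      intro j
      unfold tm
      congr 2
      ring
    rw [sum_congr rfl fun j _ => e j]
    refine hl K R h c.2 (h * c.1) 0 (h / 5 + 1) i hK hR hRK hKR hh0 (by omega) ?_ (Or.inl ?_)
    · intro x hx1 hx2
      have hx3 := hx2.trans hfl
      have hx0 : 0 ≤ x := by simpa using hx1
      have hxx : x ^ 2 ≤ (21 / 100 * h) ^ 2 := pow_le_pow_left₀ hx0 hx3 2
      constructor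
      · nlinarith
      · nlinarith
    · intro x hx1 hx2
      exact P6_I hK0 h1' h2' (by simpa using hx1) (hx2.trans hfl)
  · intro h h1 h2
    have h1' : (K : ℝ) ≤ h := by exact_mod_cast h1
    have h2' : (h : ℝ) ≤ 2 * K := by exact_mod_cast h2.le
    have hh0 : (0 : ℝ) < h := by linarith
    have hlo : 2 / 5 * (h : ℝ) ≤ (((2 * h + 4) / 5 : ℕ) : ℝ) := by
      have h3 : 2 * h ≤ 5 * ((2 * h + 4) / 5) := by omega
      have h4 : ((2 * h : ℕ) : ℝ) ≤ ((5 * ((2 * h + 4) / 5) : ℕ) : ℝ) := by exact_mod_cast h3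
      rw [Nat.cast_mul, Nat.cast_mul] at h4
      push_cast at h4 ⊢
      linarith
    have hhi : ((h + 1 : ℕ) : ℝ) ≤ 101 / 100 * h := by
      push_cast
      linarith
    have e : ∀ j : ℕ, tm K i R c h j = ((((K : ℝ) / √((h : ℝ) ^ 2 + (j : ℝ) ^ 2)) ^ i : ℝ) : ℂ) *
        ee (R * √((h : ℝ) ^ 2 + (j : ℝ) ^ 2) + c.2 * j + h * c.1) := by
      intro j
      unfold tm
      congr 2
      ring
    rw [sum_congr rfl fun j _ => e j]
    refine hl K R h c.2 (h * c.1) _ (h + 1) i hK hR hRK hKR hh0 (by omega) ?_ (Or.inr ?_)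
    · intro x hx1 hx2
      have hx3 := hx2.trans hhi
      have hx0 : 0 ≤ x := le_trans (by positivity) (hlo.trans hx1)
      have hxx : x ^ 2 ≤ (101 / 100 * h) ^ 2 := pow_le_pow_left₀ hx0 hx3 2
      constructor
      · nlinarith
      · nlinarith
    · intro x hx1 hx2
      exact P6_III hK0 h1' h2' (hlo.trans hx1) (hx2.trans hhi)
  · intro j
    rcases Nat.eq_zero_or_pos j with hj | hj
    · subst hj
      rw [Ico_eq_empty_of_le (by simp), sum_empty, norm_zero]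
      exact hM0
    have hj0 : (0 : ℝ) < j := by exact_mod_cast hj
    have e : ∀ h : ℕ, tm K i R c h j = ((((K : ℝ) / √((j : ℝ) ^ 2 + (h : ℝ) ^ 2)) ^ i : ℝ) : ℂ) *
        ee (R * √((j : ℝ) ^ 2 + (h : ℝ) ^ 2) + c.1 * h + j * c.2) := by
      intro h
      unfold tm
      rw [add_comm ((h : ℝ) ^ 2)]
      congr 2
      ring
    rw [sum_congr rfl fun h _ => e h]
    have hxa : ∀ x : ℝ, ((max K (5 * j / 2 + 1) : ℕ) : ℝ) ≤ x → x ≤ ((min (2 * K) (5 * j) : ℕ) : ℝ) →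
        (K : ℝ) ≤ x ∧ x ≤ 2 * K ∧ 5 / 2 * (j : ℝ) ≤ x ∧ x ≤ 5 * j := by
      intro x hx1 hx2
      rw [Nat.cast_max, max_le_iff] at hx1
      rw [Nat.cast_min, le_min_iff] at hx2
      have h3 : 5 * j ≤ 2 * (5 * j / 2 + 1) := by omega
      have h4 : ((5 * j : ℕ) : ℝ) ≤ ((2 * (5 * j / 2 + 1) : ℕ) : ℝ) := by exact_mod_cast h3
      rw [Nat.cast_mul 2] at h4
      have h5 := hx1.2
      have h6 := hx2.1
      have h7 := hx2.2
      rw [Nat.cast_mul] at h4 h6 h7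
      rw [Nat.cast_ofNat] at h4 h6 h7
      rw [Nat.cast_ofNat] at h4
      exact ⟨hx1.1, h6, by linarith, h7⟩
    refine hl K R j c.1 (j * c.2) _ _ i hK hR hRK hKR hj0 ?_ ?_ (Or.inl ?_)
    · exact (min_le_left _ _).trans (Nat.le_add_left _ _)
    · intro x hx1 hx2
      obtain ⟨h1, h2, h3, h4⟩ := hxa x hx1 hx2
      have h5 : 0 ≤ x := by linarith
      constructor
      · nlinarith
      · nlinarith
    · intro x hx1 hx2
      obtain ⟨h1, h2, h3, h4⟩ := hxa x hx1 hx2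
      exact P6_II hK0 h1 h2 hj0 h3 h4

theorem ee_eq (x : ℝ) : Pool.Agent.Helper22.AE.ee x = ee x := by
  unfold ee Pool.Agent.Helper22.AE.ee
  congr 1
  push_cast
  ring

open Pool.Agent.Helper92.GC (oct bs dt)
open Pool.Agent.Helper22.AE (nk cz)

theorem nk_nat (h j : ℕ) : nk ((h : ℤ), (j : ℤ)) = √((h : ℝ) ^ 2 + (j : ℝ) ^ 2) := by
  unfold nk cz
  rw [Complex.norm_def, Complex.normSq_mk]
  congr 1
  push_cast
  ring

/-- the octant in natural coordinates -/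
def octN (K : ℕ) : Finset (ℕ × ℕ) := (Ico K (2 * K) ×ˢ range (2 * K)).filter fun p => p.2 ≤ p.1

theorem bs_eq (K i : ℕ) (R : ℝ) (c : ℝ × ℝ) : bs (oct K) K i R c = ∑ p ∈ octN K, tm K i R c p.1 p.2 := by
  unfold bs
  symm
  refine sum_nbij' (fun p : ℕ × ℕ => ((p.1 : ℤ), (p.2 : ℤ))) (fun k : ℤ × ℤ => (k.1.toNat, k.2.toNat)) ?_ ?_ ?_ ?_ ?_
  · rintro ⟨h, j⟩ hp
    unfold octN at hp
    simp only [mem_filter, mem_product, mem_Ico, mem_range] at hp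
    unfold oct Pool.Agent.Helper22.AE.box
    simp only [mem_filter, mem_product, mem_Icc]
    push_cast
    refine ⟨⟨⟨?_, ?_⟩, ?_, ?_⟩, ?_, ?_, ?_, ?_⟩ <;> omega
  · rintro ⟨h, j⟩ hp
    unfold oct Pool.Agent.Helper22.AE.box at hp
    simp only [mem_filter, mem_product, mem_Icc] at hp
    push_cast at hp
    unfold octN
    simp only [mem_filter, mem_product, mem_Ico, mem_range]
    refine ⟨⟨⟨?_, ?_⟩, ?_⟩, ?_⟩ <;> omega
  · rintro ⟨h, j⟩ _
    simp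
  · rintro ⟨h, j⟩ hp
    unfold oct Pool.Agent.Helper22.AE.box at hp
    simp only [mem_filter, mem_product, mem_Icc] at hp
    push_cast at hp
    simp only [Prod.mk.injEq]
    constructor <;> omega
  · rintro ⟨h, j⟩ _
    simp only
    rw [nk_nat, ee_eq]
    unfold tm dt
    push_cast
    rfl

theorem oct_split (K : ℕ) (F : ℕ → ℕ → ℂ) : ∑ p ∈ octN K, F p.1 p.2 =
    ∑ h ∈ Ico K (2 * K), ∑ j ∈ Ico 0 (h / 5 + 1), F h j +
      ∑ h ∈ Ico K (2 * K), ∑ j ∈ Ico ((2 * h + 4) / 5) (h + 1), F h j +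
        ∑ j ∈ range (2 * K), ∑ h ∈ Ico (max K (5 * j / 2 + 1)) (min (2 * K) (5 * j)), F h j := by
  have h1 : ∑ h ∈ Ico K (2 * K), ∑ j ∈ Ico 0 (h / 5 + 1), F h j =
      ∑ p ∈ (Ico K (2 * K) ×ˢ range (2 * K)).filter (fun p => 5 * p.2 ≤ p.1), F p.1 p.2 := by
    rw [sum_filter, sum_product]
    refine sum_congr rfl fun h hh => ?_
    rw [mem_Ico] at hh
    rw [← sum_filter]
    refine sum_congr ?_ fun _ _ => rfl
    ext j
    simp only [mem_Ico, mem_filter, mem_range]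
    omega
  have h2 : ∑ h ∈ Ico K (2 * K), ∑ j ∈ Ico ((2 * h + 4) / 5) (h + 1), F h j =
      ∑ p ∈ (Ico K (2 * K) ×ˢ range (2 * K)).filter (fun p => 2 * p.1 ≤ 5 * p.2 ∧ p.2 ≤ p.1), F p.1 p.2 := by
    rw [sum_filter, sum_product]
    refine sum_congr rfl fun h hh => ?_
    rw [mem_Ico] at hh
    rw [← sum_filter]
    refine sum_congr ?_ fun _ _ => rfl
    ext j
    simp only [mem_Ico, mem_filter, mem_range]
    omega
  have h3 : ∑ j ∈ range (2 * K), ∑ h ∈ Ico (max K (5 * j / 2 + 1)) (min (2 * K) (5 * j)), F h j =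
      ∑ p ∈ (Ico K (2 * K) ×ˢ range (2 * K)).filter (fun p => p.1 < 5 * p.2 ∧ 5 * p.2 < 2 * p.1), F p.1 p.2 := by
    rw [sum_filter, sum_product_right]
    refine sum_congr rfl fun j hj => ?_
    rw [mem_range] at hj
    rw [← sum_filter]
    refine sum_congr ?_ fun _ _ => rfl
    ext h
    simp only [mem_Ico, mem_filter, max_le_iff, lt_min_iff]
    omega
  rw [h1, h2, h3, ← sum_union, ← sum_union]
  · refine sum_congr ?_ fun _ _ => rfl
    ext ⟨h, j⟩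
    unfold octN
    simp only [mem_union, mem_filter, mem_product, mem_Ico, mem_range]
    omega
  · rw [disjoint_left]
    rintro ⟨h, j⟩ hp
    simp only [mem_union, mem_filter, mem_product, mem_Ico, mem_range] at hp ⊢
    omega
  · rw [disjoint_left]
    rintro ⟨h, j⟩ hp
    simp only [mem_filter, mem_product, mem_Ico, mem_range] at hp ⊢
    omega

/-- **The sixth derivative test for the octant**, for all radii and all centres. -/
theorem oct6 : ∃ C : ℝ, 0 < C ∧ ∀ (R : ℝ) (K : ℕ), 1 ≤ R → 1 ≤ K → R ≤ (K : ℝ) ^ 5 → (K : ℝ) ^ 49 ≤ R ^ 16 →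
    ∀ (i : ℕ), i ≤ 2 → ∀ c : ℝ × ℝ,
      ‖bs (oct K) K i R c‖ ≤ C * ((K : ℝ) ^ 2 * (R / (K : ℝ) ^ 5) ^ (1 / 62 : ℝ)) := by
  obtain ⟨C, hC, hl⟩ := lines
  refine ⟨4 * C + 1600, by positivity, ?_⟩
  intro R K hR hK hRK hKR i _ c
  have hK0 : (0 : ℝ) < K := by
    have : 0 < K := by omega
    exact_mod_cast this
  have hR0 : (0 : ℝ) < R := by linarith
  set y : ℝ := (R / (K : ℝ) ^ 5) ^ (1 / 62 : ℝ) with hy
  have hy0 : 0 < y := Real.rpow_pos_of_pos (by positivity) _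
  rw [bs_eq]
  rcases Nat.lt_or_ge K 400 with hK4 | hK4
  · -- small `K`
    have hK4' : (K : ℝ) ≤ 400 := by exact_mod_cast hK4.le
    have h1 : ‖∑ p ∈ octN K, tm K i R c p.1 p.2‖ ≤ ((octN K).card : ℝ) := by
      refine (norm_sum_le _ _).trans ?_
      refine (sum_le_card_nsmul _ _ 1 ?_).trans (by rw [nsmul_eq_mul, mul_one])
      rintro ⟨h, j⟩ hp
      unfold octN at hp
      simp only [mem_filter, mem_product, mem_Ico, mem_range] at hp
      unfold tm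
      have h2 : (K : ℝ) ≤ h := by exact_mod_cast hp.1.1.1
      have h3 : (K : ℝ) ≤ √((h : ℝ) ^ 2 + (j : ℝ) ^ 2) := by
        refine Real.le_sqrt_of_sq_le ?_
        nlinarith [sq_nonneg (j : ℝ)]
      have h4 : 0 ≤ (K : ℝ) / √((h : ℝ) ^ 2 + (j : ℝ) ^ 2) := by positivity
      rw [norm_mul, norm_ee, mul_one, Complex.norm_real, Real.norm_eq_abs, abs_of_nonneg (pow_nonneg h4 i)]
      refine pow_le_one₀ h4 ?_
      rw [div_le_one (by linarith)]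
      exact h3
    have h2 : ((octN K).card : ℝ) ≤ 2 * (K : ℝ) ^ 2 := by
      have h3 : (octN K).card ≤ K * (2 * K) := by
        unfold octN
        refine (card_filter_le _ _).trans ?_
        rw [card_product, Nat.card_Ico, card_range]
        have : 2 * K - K = K := by omega
        rw [this]
      have h4 : ((octN K).card : ℝ) ≤ ((K * (2 * K) : ℕ) : ℝ) := by exact_mod_cast h3
      refine h4.trans_eq ?_
      push_cast
      ring
    have h3 : (1 / 400 : ℝ) ≤ y := by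
      have h4 : ((1 / 400 : ℝ) ^ 62) ≤ R / (K : ℝ) ^ 5 := by
        rw [le_div_iff₀ (by positivity)]
        have h5 := pow_le_pow_left₀ hK0.le hK4' 5
        calc (1 / 400 : ℝ) ^ 62 * (K : ℝ) ^ 5 ≤ (1 / 400 : ℝ) ^ 62 * 400 ^ 5 := mul_le_mul_of_nonneg_left h5 (by positivity)
          _ ≤ 1 := by norm_num
          _ ≤ R := hR
      have h5 := Real.rpow_le_rpow (by positivity) h4 (show (0 : ℝ) ≤ 1 / 62 by norm_num)
      have h6 : ((1 / 400 : ℝ) ^ 62) ^ (1 / 62 : ℝ) = 1 / 400 := by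
        rw [← Real.rpow_natCast, ← Real.rpow_mul (by norm_num)]
        norm_num
      rw [h6] at h5
      exact h5
    have h4 : (K : ℝ) ^ 2 * (1 / 400) ≤ (K : ℝ) ^ 2 * y := mul_le_mul_of_nonneg_left h3 (by positivity)
    have h5 : 0 ≤ C * ((K : ℝ) ^ 2 * y) := by positivity
    calc _ ≤ _ := h1
      _ ≤ _ := h2
      _ ≤ (4 * C + 1600) * ((K : ℝ) ^ 2 * y) := by nlinarith
  · obtain ⟨h1, h2, h3⟩ := hl K R c i hK4 hR hRK hKR
    rw [oct_split]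
    set M : ℝ := C * (K * y) with hM
    have hM0 : 0 ≤ M := by positivity
    have e1 : ‖∑ h ∈ Ico K (2 * K), ∑ j ∈ Ico 0 (h / 5 + 1), tm K i R c h j‖ ≤ K * M := by
      refine (norm_sum_le _ _).trans ?_
      refine (sum_le_card_nsmul _ _ M fun h hh => ?_).trans_eq ?_
      · rw [mem_Ico] at hh
        exact h1 h hh.1 hh.2
      · rw [Nat.card_Ico, nsmul_eq_mul]
        have : 2 * K - K = K := by omega
        rw [this]
    have e2 : ‖∑ h ∈ Ico K (2 * K), ∑ j ∈ Ico ((2 * h + 4) / 5) (h + 1), tm K i R c h j‖ ≤ K * M := by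
      refine (norm_sum_le _ _).trans ?_
      refine (sum_le_card_nsmul _ _ M fun h hh => ?_).trans_eq ?_
      · rw [mem_Ico] at hh
        exact h2 h hh.1 hh.2
      · rw [Nat.card_Ico, nsmul_eq_mul]
        have : 2 * K - K = K := by omega
        rw [this]
    have e3 : ‖∑ j ∈ range (2 * K), ∑ h ∈ Ico (max K (5 * j / 2 + 1)) (min (2 * K) (5 * j)), tm K i R c h j‖ ≤ 2 * K * M := by
      refine (norm_sum_le _ _).trans ?_
      refine (sum_le_card_nsmul _ _ M fun j _ => h3 j).trans_eq ?_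
      rw [card_range, nsmul_eq_mul]
      push_cast
      ring
    calc _ ≤ ‖∑ h ∈ Ico K (2 * K), ∑ j ∈ Ico 0 (h / 5 + 1), tm K i R c h j +
          ∑ h ∈ Ico K (2 * K), ∑ j ∈ Ico ((2 * h + 4) / 5) (h + 1), tm K i R c h j‖ +
            ‖∑ j ∈ range (2 * K), ∑ h ∈ Ico (max K (5 * j / 2 + 1)) (min (2 * K) (5 * j)), tm K i R c h j‖ := norm_add_le _ _
      _ ≤ (K * M + K * M) + 2 * K * M := add_le_add ((norm_add_le _ _).trans (add_le_add e1 e2)) e3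
      _ = 4 * C * ((K : ℝ) ^ 2 * y) := by
          rw [hM]
          ring
      _ ≤ _ := by
          have : 0 ≤ (K : ℝ) ^ 2 * y := by positivity
          nlinarith

end Pool.Agent.Helper46.BF
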