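import Pool.Agent.Helper79.EG.VdC

/-!
# Derivative tests for exponential sums, in finite differences

`Sm f a b = ∑_(a ≤ n < b) ee (f n)`. `Cnd q f a b l m`: the mixed differences of order `q + 2` of `f` on
`[a, b]` are between `l` and `m` times the product of the steps. `test`: van der Corput's inequality,
applied `q` times, and the second derivative test.
-/

set_option autoImplicit false

namespace Pool.Agent.Helper46.BF

open Finset
open Pool.Agent.Helper22.GC (ee ee_add norm_ee second_deriv_test)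

/-- the exponential sum over `[a, b)` -/
noncomputable def Sm (f : ℕ → ℝ) (a b : ℕ) : ℂ := ∑ n ∈ Finset.Ico a b, ee (f n)

/-- the difference with step `u` -/
def Dif (u : ℕ) (f : ℕ → ℝ) : ℕ → ℝ := fun n => f (n + u) - f n

/-- the mixed differences of order `q + 2` are between `l` and `m` times the product of the steps -/
def Cnd : ℕ → (ℕ → ℝ) → ℕ → ℕ → ℝ → ℝ → Prop
  | 0, f, a, b, l, m => ∀ n, a ≤ n → n + 1 < b →
      l ≤ (f (n + 2) - f (n + 1)) - (f (n + 1) - f n) ∧
        (f (n + 2) - f (n + 1)) - (f (n + 1) - f n) ≤ m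
  | q + 1, f, a, b, l, m => ∀ u : ℕ, 1 ≤ u → Cnd q (Dif u f) a (b - u) (l * u) (m * u)

theorem Sm_le (f : ℕ → ℝ) {a b N : ℕ} (h : b ≤ a + N) : ‖Sm f a b‖ ≤ N := by
  unfold Sm
  refine (norm_sum_le _ _).trans ?_
  refine (Finset.sum_le_card_nsmul _ _ 1 fun n _ => (norm_ee _).le).trans ?_
  rw [Nat.card_Ico, nsmul_eq_mul, mul_one]
  exact_mod_cast (by omega : b - a ≤ N)

theorem vdc (f : ℕ → ℝ) {a b N H : ℕ} (h : b ≤ a + N) (hH : 1 ≤ H) (hHN : H ≤ N) :
    (‖Sm f a b‖ / N) ^ 2 ≤ 2 / H + 4 / H * ∑ u ∈ Ico 1 H, ‖Sm (Dif u f) a (b - u)‖ / N := by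
  have key := EG.VdC.vdc_nat (fun n => if n ≤ b - a then (1 : ℂ) else 0)
    (fun n => by split_ifs <;> simp) (fun n => f (a + n - 1)) N H hH
  have e1 : ∑ n ∈ Icc 1 N, (if n ≤ b - a then (1 : ℂ) else 0) * ee (f (a + n - 1)) = Sm f a b := by
    unfold Sm
    rw [Finset.sum_Ico_eq_sum_range]
    have e2 : ∑ n ∈ Icc 1 N, (if n ≤ b - a then (1 : ℂ) else 0) * ee (f (a + n - 1)) =
        ∑ n ∈ Icc 1 (b - a), ee (f (a + n - 1)) := by
      symm
      rw [← Finset.sum_filter_add_sum_filter_not (Icc 1 N) (fun n => n ≤ b - a)]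
      rw [Finset.sum_eq_zero (s := {n ∈ Icc 1 N | ¬ n ≤ b - a}) (fun n hn => by
        rw [if_neg (Finset.mem_filter.1 hn).2, zero_mul]), add_zero]
      refine Finset.sum_congr ?_ (fun n hn => ?_)
      · ext n
        simp only [Finset.mem_filter, Finset.mem_Icc]
        omega
      · rw [if_pos (Finset.mem_filter.1 hn).2, one_mul]
    rw [e2]
    refine Finset.sum_nbij' (fun n => n - 1) (fun n => n + 1) ?_ ?_ ?_ ?_ ?_
    · intro n hn
      rw [Finset.mem_Icc] at hn
      rw [Finset.mem_range]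
      omega
    · intro n hn
      rw [Finset.mem_range] at hn
      rw [Finset.mem_Icc]
      omega
    · intro n hn
      rw [Finset.mem_Icc] at hn
      omega
    · intro n _
      rfl
    · intro n hn
      rw [Finset.mem_Icc] at hn
      congr 2
      omega
  have e3 : ∀ u ∈ Ico 1 H, ‖∑ n ∈ Icc 1 N, (if n + u ≤ N then
      (if n + u ≤ b - a then (1 : ℂ) else 0) * (starRingEnd ℂ) (if n ≤ b - a then (1 : ℂ) else 0)
        else 0) * ee (f (a + (n + u) - 1) - f (a + n - 1))‖ = ‖Sm (Dif u f) a (b - u)‖ := by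
    intro u hu
    rw [Finset.mem_Ico] at hu
    congr 1
    unfold Sm
    rw [Finset.sum_Ico_eq_sum_range]
    have e2 : ∑ n ∈ Icc 1 N, (if n + u ≤ N then
        (if n + u ≤ b - a then (1 : ℂ) else 0) * (starRingEnd ℂ) (if n ≤ b - a then (1 : ℂ) else 0)
        else 0) * ee (f (a + (n + u) - 1) - f (a + n - 1)) =
        ∑ n ∈ Icc 1 (b - u - a), ee (f (a + (n + u) - 1) - f (a + n - 1)) := by
      symm
      rw [← Finset.sum_filter_add_sum_filter_not (Icc 1 N) (fun n => n + u ≤ b - a)]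
      rw [Finset.sum_eq_zero (s := {n ∈ Icc 1 N | ¬ n + u ≤ b - a}) (fun n hn => by
        rw [if_neg (Finset.mem_filter.1 hn).2, zero_mul, ite_self, zero_mul]), add_zero]
      refine Finset.sum_congr ?_ (fun n hn => ?_)
      · ext n
        simp only [Finset.mem_filter, Finset.mem_Icc]
        omega
      · have h1 := (Finset.mem_filter.1 hn).2
        rw [if_pos (by omega), if_pos h1, if_pos (by omega), map_one, one_mul, one_mul]
    rw [e2]
    refine Finset.sum_nbij' (fun n => n - 1) (fun n => n + 1) ?_ ?_ ?_ ?_ ?_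
    · intro n hn
      rw [Finset.mem_Icc] at hn
      rw [Finset.mem_range]
      omega
    · intro n hn
      rw [Finset.mem_range] at hn
      rw [Finset.mem_Icc]
      omega
    · intro n hn
      rw [Finset.mem_Icc] at hn
      omega
    · intro n _
      rfl
    · intro n hn
      rw [Finset.mem_Icc] at hn
      unfold Dif
      have h1 : a + (n + u) - 1 = a + (n - 1) + u := by omega
      have h2 : a + n - 1 = a + (n - 1) := by omega
      rw [h1, h2]
  rw [e1, Finset.sum_congr rfl e3] at key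
  have hN : (0 : ℝ) < N := by exact_mod_cast (by omega : 0 < N)
  have hH0 : (0 : ℝ) < H := by exact_mod_cast (by omega : 0 < H)
  have hHN' : (H : ℝ) ≤ N := by exact_mod_cast hHN
  rw [← Finset.sum_div]
  set T : ℝ := ∑ u ∈ Ico 1 H, ‖Sm (Dif u f) a (b - u)‖ with hT
  have hT0 : 0 ≤ T := Finset.sum_nonneg fun u _ => norm_nonneg _
  have h1 : (H : ℝ) * ‖Sm f a b‖ ^ 2 ≤ 2 * N * (N + 2 * T) :=
    key.trans (mul_le_mul_of_nonneg_right (by linarith) (by positivity))
  have e4 : 2 / (H : ℝ) + 4 / H * (T / N) = (2 * N * (N + 2 * T)) / (H * N ^ 2) := by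
    field_simp
    ring
  rw [e4, div_pow, div_le_div_iff₀ (by positivity) (by positivity)]
  nlinarith [sq_nonneg (N : ℝ)]

private theorem inner_pow46 {ι : Type} (s : Finset ι) (T : ι → ℝ) (hT : ∀ u ∈ s, 0 ≤ T u) (n : ℕ) :
    (∑ u ∈ s, T u) ^ (n + 1) ≤ (s.card : ℝ) ^ n * ∑ u ∈ s, T u ^ (n + 1) := by
  rcases s.eq_empty_or_nonempty with h | h
  · subst h
    simp
  · have h1 := pow_sum_div_card_le_sum_pow (s := s) (f := T) hT n
    have h2 : (0 : ℝ) < (s.card : ℝ) ^ n := by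
      have : 0 < s.card := h.card_pos
      positivity
    rw [div_le_iff₀ h2] at h1
    linarith

theorem sum_inv_sqrt (H : ℕ) : ∑ u ∈ Ico 1 H, 1 / √(u : ℝ) ≤ 2 * √(H : ℝ) := by
  have key : ∀ H : ℕ, ∑ u ∈ Ico 1 (H + 1), 1 / √(u : ℝ) ≤ 2 * √(H : ℝ) := by
    intro H
    induction H with
    | zero => simp
    | succ H ih =>
      rw [Finset.sum_Ico_succ_top (by omega)]
      have h1 : (0 : ℝ) ≤ H := Nat.cast_nonneg _
      have h2 : 0 ≤ √(H : ℝ) := Real.sqrt_nonneg _
      have h3 : √(H : ℝ) ≤ √((H + 1 : ℕ) : ℝ) := Real.sqrt_le_sqrt (by push_cast; linarith)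
      have h4 : √(H : ℝ) ^ 2 = H := Real.sq_sqrt h1
      have h5 : √((H + 1 : ℕ) : ℝ) ^ 2 = H + 1 := by
        rw [Real.sq_sqrt (by positivity)]
        push_cast
        ring
      have h6 : 0 < √((H + 1 : ℕ) : ℝ) := Real.sqrt_pos.2 (by positivity)
      have h7 : 1 / √((H + 1 : ℕ) : ℝ) ≤ 2 * √((H + 1 : ℕ) : ℝ) - 2 * √(H : ℝ) := by
        rw [div_le_iff₀ h6]
        nlinarith
      linarith
  rcases Nat.eq_zero_or_pos H with h | h
  · subst h
    simp
  · obtain ⟨n, rfl⟩ := Nat.exists_eq_succ_of_ne_zero h.ne'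
    refine (key n).trans ?_
    exact mul_le_mul_of_nonneg_left (Real.sqrt_le_sqrt (by push_cast; linarith)) zero_le_two

/-- the second differences are between `l` and `α l` -/
theorem test0 {α : ℝ} (hα : 1 ≤ α) (f : ℕ → ℝ) {a b N : ℕ} {l : ℝ} (hl : 0 < l) (hl4 : l ≤ 1 / 4)
    (h : b ≤ a + N) (hN : 1 ≤ N) (hc : Cnd 0 f a b l (α * l)) :
    ‖Sm f a b‖ / N ≤ 10 * α * (√l + 1 / (N * √l)) := by
  have hN0 : (0 : ℝ) < N := by exact_mod_cast hN
  have hs : 0 < √l := Real.sqrt_pos.2 hl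
  have hss : √l * √l = l := Real.mul_self_sqrt hl.le
  have hV : ∀ p q, a ≤ p → p ≤ q → q < b → (f (q + 1) - f q) - (f (p + 1) - f p) ≤ α * l * ((q : ℝ) - p) := by
    intro p q hp hpq
    induction q, hpq using Nat.le_induction with
    | base => intro _; simp
    | succ q hpq ih =>
      intro hqb
      have h1 := ih (by omega)
      have h2 := (hc q (by omega) hqb).2
      push_cast
      linarith
  have h1 := second_deriv_test (f := f) (a := a) (b := b) hl hl4 (V := α * l * N) (by positivity)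
    (fun n hn hn' => (hc n hn hn').1) (fun p q hp hpq hq => (hV p q hp hpq hq).trans (by
      have h2 : (q : ℝ) - p ≤ N := by
        have h3 : (q : ℝ) ≤ a + N := by exact_mod_cast (by omega : q ≤ a + N)
        have h4 : (a : ℝ) ≤ p := by exact_mod_cast hp
        linarith
      exact mul_le_mul_of_nonneg_left h2 (by positivity)))
  have h2 : ‖Sm f a b‖ / N ≤ 5 * (α * l * N + 2) / √l / N := by
    unfold Sm
    exact div_le_div_of_nonneg_right h1 hN0.le
  refine h2.trans ?_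
  have h3 : 10 * α * (√l + 1 / (N * √l)) = (10 * α * (√l * √l * N + 1)) / (√l * N) := by
    field_simp
  have h4 : 5 * (α * l * N + 2) / √l / N = (5 * (α * l * N + 2)) / (√l * N) := by
    rw [div_div]
  rw [h3, h4, hss]
  refine div_le_div_of_nonneg_right ?_ (by positivity)
  have h5 : 0 ≤ α * l * N := by positivity
  nlinarith

/-- van der Corput's inequality, applied `q` times, and the second derivative test -/
theorem test {α : ℝ} (hα : 1 ≤ α) (q : ℕ) : ∃ C : ℝ, 1 ≤ C ∧ ∀ (f : ℕ → ℝ) (a b N : ℕ) (l : ℝ) (H : ℕ → ℕ), 0 < l →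
    l * ∏ i ∈ range q, (H i : ℝ) ≤ 1 / 4 → (∀ i < q, 1 ≤ H i ∧ H i ≤ N) → 1 ≤ N → b ≤ a + N → Cnd q f a b l (α * l) →
      (‖Sm f a b‖ / N) ^ (2 ^ q) ≤ C * (∑ i ∈ range q, 1 / (H i : ℝ) ^ (2 ^ i) + √(l * ∏ i ∈ range q, (H i : ℝ)) +
        1 / (N * √(l * ∏ i ∈ range q, (H i : ℝ)))) := by
  induction q with
  | zero =>
    refine ⟨10 * α, by linarith, ?_⟩
    intro f a b N l H hl hl4 _ hN hb hc
    simp only [range_zero, prod_empty, mul_one, sum_empty, zero_add, pow_zero, pow_one] at hl4 ⊢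
    exact test0 hα f hl hl4 hb hN hc
  | succ q ih =>
    obtain ⟨C, hC, ih⟩ := ih
    set D : ℕ := 2 ^ q with hD
    have hD1 : 1 ≤ D := Nat.one_le_two_pow
    refine ⟨2 ^ D * (2 ^ D + 4 ^ D * (2 * C)), ?_, ?_⟩
    · have h1 : (1 : ℝ) ≤ 2 ^ D := one_le_pow₀ one_le_two
      have h2 : (0 : ℝ) ≤ 4 ^ D * (2 * C) := by positivity
      nlinarith
    intro f a b N l H hl hl4 hH hN hb hc
    obtain ⟨hHq, hHN⟩ := hH q (Nat.lt_succ_self q)
    have hN0 : (0 : ℝ) < N := by exact_mod_cast hN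
    have hHq0 : (0 : ℝ) < H q := by exact_mod_cast hHq
    set P : ℝ := ∏ i ∈ range q, (H i : ℝ) with hP
    have hP0 : 0 < P := by
      rw [hP]
      refine prod_pos fun i hi => ?_
      have := (hH i (by rw [mem_range] at hi; omega)).1
      exact_mod_cast this
    rw [prod_range_succ, ← hP] at hl4 ⊢
    set E : ℝ := ∑ i ∈ range q, 1 / (H i : ℝ) ^ (2 ^ i) with hE
    have hE0 : 0 ≤ E := sum_nonneg fun i _ => by positivity
    rw [sum_range_succ, ← hE, ← hD]
    set s : ℝ := √(l * P) with hs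
    have hs0 : 0 < s := Real.sqrt_pos.2 (by positivity)
    have hs1 : √(l * (P * H q)) = s * √(H q : ℝ) := by
      rw [hs, ← Real.sqrt_mul (by positivity), mul_assoc]
    have ht0 : 0 < √(H q : ℝ) := Real.sqrt_pos.2 hHq0
    have htt : √(H q : ℝ) * √(H q : ℝ) = H q := Real.mul_self_sqrt hHq0.le
    have hv := vdc f hb hHq hHN
    have hT : ∀ u ∈ Ico 1 (H q), (‖Sm (Dif u f) a (b - u)‖ / N) ^ D ≤
        C * (E + s * √(H q : ℝ)) + C / (N * s) * (1 / √(u : ℝ)) := by
      intro u hu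
      rw [mem_Ico] at hu
      have hu0 : (0 : ℝ) < u := by exact_mod_cast hu.1
      have huH : (u : ℝ) ≤ H q := by exact_mod_cast hu.2.le
      have h1 := ih (Dif u f) a (b - u) N (l * u) H (by positivity) (by
        refine le_trans ?_ hl4
        rw [mul_assoc, mul_comm (u : ℝ)]
        exact mul_le_mul_of_nonneg_left (mul_le_mul_of_nonneg_left huH hP0.le) hl.le)
        (fun i hi => hH i (by omega)) hN (by omega) (by
          have := hc u hu.1
          rwa [mul_assoc] at this)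
      have h2 : √(l * u * P) = s * √(u : ℝ) := by
        rw [hs, ← Real.sqrt_mul (by positivity)]
        congr 1
        ring
      rw [h2] at h1
      refine h1.trans ?_
      have h3 : √(u : ℝ) ≤ √(H q : ℝ) := Real.sqrt_le_sqrt huH
      have h4 : 1 / (N * (s * √(u : ℝ))) = 1 / (N * s) * (1 / √(u : ℝ)) := by
        rw [one_div_mul_one_div, mul_assoc]
      rw [h4]
      have h5 : s * √(u : ℝ) ≤ s * √(H q : ℝ) := mul_le_mul_of_nonneg_left h3 hs0.le
      have h6 : C * (s * √(u : ℝ)) ≤ C * (s * √(H q : ℝ)) := mul_le_mul_of_nonneg_left h5 (by linarith)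
      have h7 : C * (1 / (N * s) * (1 / √(u : ℝ))) = C / (N * s) * (1 / √(u : ℝ)) := by ring
      have h8 : C * (E + s * √(u : ℝ) + 1 / (N * s) * (1 / √(u : ℝ))) =
          C * E + C * (s * √(u : ℝ)) + C * (1 / (N * s) * (1 / √(u : ℝ))) := by ring
      rw [h8, h7]
      linarith
    set T : ℕ → ℝ := fun u => ‖Sm (Dif u f) a (b - u)‖ / N with hTd
    have hT0 : ∀ u, 0 ≤ T u := fun u => by positivity
    -- the sum of the powers
    have hsum : ∑ u ∈ Ico 1 (H q), T u ^ D ≤ H q * (C * (E + s * √(H q : ℝ))) + C / (N * s) * (2 * √(H q : ℝ)) := by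
      refine (sum_le_sum hT).trans ?_
      rw [sum_add_distrib, ← mul_sum (f := fun u : ℕ => 1 / √(u : ℝ)), sum_const, Nat.card_Ico, nsmul_eq_mul]
      have h1 : ((H q - 1 : ℕ) : ℝ) ≤ H q := by exact_mod_cast Nat.sub_le _ _
      have h2 : 0 ≤ C * (E + s * √(H q : ℝ)) := by positivity
      exact add_le_add (mul_le_mul_of_nonneg_right h1 h2) (mul_le_mul_of_nonneg_left (sum_inv_sqrt _) (by positivity))
    -- the power of the mean
    have hmean : (∑ u ∈ Ico 1 (H q), T u) ^ D ≤ (H q : ℝ) ^ (D - 1) * ∑ u ∈ Ico 1 (H q), T u ^ D := by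
      obtain ⟨n, hn⟩ : ∃ n, D = n + 1 := ⟨D - 1, by omega⟩
      rw [hn, Nat.add_sub_cancel]
      refine (inner_pow46 (Ico 1 (H q)) T (fun u _ => hT0 u) n).trans ?_
      refine mul_le_mul_of_nonneg_right ?_ (sum_nonneg fun u _ => pow_nonneg (hT0 u) _)
      refine pow_le_pow_left₀ (Nat.cast_nonneg _) ?_ n
      rw [Nat.card_Ico]
      exact_mod_cast Nat.sub_le _ _
    have hB : (4 / (H q : ℝ) * ∑ u ∈ Ico 1 (H q), T u) ^ D ≤
        4 ^ D * (2 * C) * (E + s * √(H q : ℝ) + 1 / (N * (s * √(H q : ℝ)))) := by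
      have h1 : (4 / (H q : ℝ) * ∑ u ∈ Ico 1 (H q), T u) ^ D = 4 ^ D * ((∑ u ∈ Ico 1 (H q), T u) ^ D / (H q : ℝ) ^ D) := by
        rw [mul_pow, div_pow]
        ring
      have h2 : (∑ u ∈ Ico 1 (H q), T u) ^ D / (H q : ℝ) ^ D ≤ (∑ u ∈ Ico 1 (H q), T u ^ D) / H q := by
        rw [div_le_div_iff₀ (by positivity) hHq0]
        have h3 : (H q : ℝ) ^ D = (H q : ℝ) ^ (D - 1) * H q := by
          rw [← pow_succ]
          congr 1
          omega
        rw [h3]
        calc (∑ u ∈ Ico 1 (H q), T u) ^ D * H q ≤ ((H q : ℝ) ^ (D - 1) * ∑ u ∈ Ico 1 (H q), T u ^ D) * H q :=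
              mul_le_mul_of_nonneg_right hmean hHq0.le
          _ = _ := by ring
      have h4 : (∑ u ∈ Ico 1 (H q), T u ^ D) / H q ≤ 2 * C * (E + s * √(H q : ℝ) + 1 / (N * (s * √(H q : ℝ)))) := by
        rw [div_le_iff₀ hHq0]
        refine hsum.trans ?_
        have h5 : C / (N * s) * (2 * √(H q : ℝ)) = 2 * C * (1 / (N * (s * √(H q : ℝ)))) * H q := by
          have h6 : (H q : ℝ) = √(H q : ℝ) * √(H q : ℝ) := htt.symm
          have h7 : 2 * C * (1 / (N * (s * √(H q : ℝ)))) * (√(H q : ℝ) * √(H q : ℝ)) = C / (N * s) * (2 * √(H q : ℝ)) := by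
            field_simp
          rw [htt] at h7
          exact h7.symm
        rw [h5]
        have h8 : 0 ≤ C * (E + s * √(H q : ℝ)) * H q := by positivity
        nlinarith
      rw [h1, mul_assoc]
      exact mul_le_mul_of_nonneg_left (h2.trans h4) (by positivity)
    have hfin : (‖Sm f a b‖ / N) ^ (2 ^ (q + 1)) ≤
        2 ^ D * ((2 / (H q : ℝ)) ^ D + (4 / (H q : ℝ) * ∑ u ∈ Ico 1 (H q), T u) ^ D) := by
      have h1 : (‖Sm f a b‖ / N) ^ (2 ^ (q + 1)) = ((‖Sm f a b‖ / N) ^ 2) ^ D := by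
        rw [← pow_mul, hD, pow_succ, mul_comm 2]
      rw [h1]
      have hX : 0 ≤ 2 / (H q : ℝ) := by positivity
      have hY : 0 ≤ 4 / (H q : ℝ) * ∑ u ∈ Ico 1 (H q), T u := mul_nonneg (by positivity) (sum_nonneg fun u _ => hT0 u)
      refine (pow_le_pow_left₀ (sq_nonneg _) hv D).trans ?_
      refine (add_pow_le hX hY D).trans ?_
      refine mul_le_mul_of_nonneg_right ?_ (by positivity)
      exact pow_le_pow_right₀ one_le_two (Nat.sub_le _ _)
    refine hfin.trans ?_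
    rw [hs1, mul_assoc (2 ^ D : ℝ)]
    refine mul_le_mul_of_nonneg_left ?_ (by positivity)
    have h1 : (2 / (H q : ℝ)) ^ D = 2 ^ D * (1 / (H q : ℝ) ^ D) := by
      rw [div_pow]
      ring
    rw [h1]
    have h2 : 0 ≤ E + s * √(H q : ℝ) + 1 / (N * (s * √(H q : ℝ))) := by positivity
    have h3 : (0 : ℝ) ≤ 1 / (H q : ℝ) ^ D := by positivity
    have h4 : (0 : ℝ) ≤ 2 ^ D := by positivity
    have h5 : (0 : ℝ) ≤ 4 ^ D * (2 * C) := by positivity
    calc 2 ^ D * (1 / (H q : ℝ) ^ D) + (4 / (H q : ℝ) * ∑ u ∈ Ico 1 (H q), T u) ^ D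
        ≤ 2 ^ D * (1 / (H q : ℝ) ^ D) + 4 ^ D * (2 * C) * (E + s * √(H q : ℝ) + 1 / (N * (s * √(H q : ℝ)))) :=
          add_le_add le_rfl hB
      _ ≤ _ := by
          have h6 := mul_nonneg h4 h2
          have h7 := mul_nonneg h5 h3
          nlinarith

end Pool.Agent.Helper46.BF
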